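import Pool.Agent.H64.Act

namespace Pool.Agent.Results.MP_98e941_al.NotActionDefinable

open Pool.Agent.H64.ActDefs

theorem result (K X Y : Type) [Ring K] [Nontrivial K] [Infinite X] [Infinite Y] :
    ∃ C : Set (GRep K), IsAbstract C ∧ (∃ T : Set (Formula K X Y), C = Models T) ∧
      IsSaturated C ∧ IsRightHereditary C ∧
      ¬ ∃ T : Set (Formula K X Y), (∀ φ ∈ T, IsActionFormula φ) ∧ C = Models T :=
  Pool.Agent.H64.Act.main K X Y

end Pool.Agent.Results.MP_98e941_al.NotActionDefinable
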